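import Mathlib

set_option autoImplicit false

/-!
# Equal-degree vertices joined by a path of length three: basic tools
-/

namespace Pool.Agent.N425.P3

open Finset

/-- distinct natural numbers in `(lo, hi]` -/
theorem sum_inj_le {V : Type*} [DecidableEq V] (X : Finset V) (f : V → ℕ) (lo k : ℕ)
    (hinj : ∀ x ∈ X, ∀ y ∈ X, f x = f y → x = y) (hlo : ∀ x ∈ X, lo < f x)
    (hhi : ∀ x ∈ X, f x ≤ lo + k) :
    2 * ∑ x ∈ X, (f x - lo) ≤ k * (k + 1) := by
  have h1 : ∑ x ∈ X, (f x - lo) = ∑ i ∈ X.image (fun x => f x - lo), i := by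
    rw [Finset.sum_image]
    intro x hx y hy hxy
    have h5 := hlo x hx
    have h6 := hlo y hy
    have h7 : f x - lo = f y - lo := hxy
    exact hinj x hx y hy (by omega)
  have h2 : ∑ i ∈ X.image (fun x => f x - lo), i ≤ ∑ i ∈ range (k + 1), i := by
    apply Finset.sum_le_sum_of_subset
    intro i hi
    rw [mem_image] at hi
    obtain ⟨x, hx, rfl⟩ := hi
    rw [mem_range]
    have := hhi x hx
    omega
  have h3 := Finset.sum_range_id_mul_two (k + 1)
  rw [h1]
  have h4 : k + 1 - 1 = k := by omega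
  rw [h4] at h3
  nlinarith

theorem card_inj_le {V : Type*} [DecidableEq V] (X : Finset V) (f : V → ℕ) (lo k : ℕ)
    (hinj : ∀ x ∈ X, ∀ y ∈ X, f x = f y → x = y) (hlo : ∀ x ∈ X, lo < f x)
    (hhi : ∀ x ∈ X, f x ≤ lo + k) : X.card ≤ k := by
  have h1 : X.card = (X.image f).card := by
    rw [Finset.card_image_of_injOn]
    intro x hx y hy hxy
    exact hinj x hx y hy hxy
  have h2 : X.image f ⊆ Finset.Ioc lo (lo + k) := by
    intro i hi
    rw [mem_image] at hi
    obtain ⟨x, hx, rfl⟩ := hi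
    rw [mem_Ioc]
    exact ⟨hlo x hx, hhi x hx⟩
  have h3 := Finset.card_le_card h2
  rw [Nat.card_Ioc] at h3
  omega

variable {V : Type*} [Fintype V] [DecidableEq V] (G : SimpleGraph V) [DecidableRel G.Adj]

/-- No two distinct vertices of equal degree are joined by a path `x₁ y₁ y₂ x₂` of length three. -/
def NoPath : Prop :=
  ∀ x₁ y₁ y₂ x₂ : V, G.Adj x₁ y₁ → G.Adj y₁ y₂ → G.Adj y₂ x₂ → x₁ ≠ x₂ → x₁ ≠ y₂ → y₁ ≠ x₂ →
    G.degree x₁ ≠ G.degree x₂

variable {G}

/-- double counting of the edges between two sets -/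
theorem cross_count (X Y : Finset V) :
    ∑ x ∈ X, (G.neighborFinset x ∩ Y).card = ∑ y ∈ Y, (G.neighborFinset y ∩ X).card := by
  have h1 : ∀ x, (G.neighborFinset x ∩ Y).card = ∑ y ∈ Y, if G.Adj x y then 1 else 0 := by
    intro x
    rw [Finset.sum_ite, Finset.sum_const_zero, add_zero, Finset.sum_const, smul_eq_mul, mul_one]
    congr 1
    ext y
    simp [and_comm]
  have h2 : ∀ y, (G.neighborFinset y ∩ X).card = ∑ x ∈ X, if G.Adj x y then 1 else 0 := by
    intro y
    rw [Finset.sum_ite, Finset.sum_const_zero, add_zero, Finset.sum_const, smul_eq_mul, mul_one]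
    congr 1
    ext x
    simp [and_comm, G.adj_comm]
  simp_rw [h1, h2]
  rw [Finset.sum_comm]

omit [DecidableEq V] in
theorem two_e : ∑ v, G.degree v = 2 * G.edgeFinset.card := G.sum_degrees_eq_twice_card_edges

end Pool.Agent.N425.P3
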