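import Pool.Agent.N425.P3.Basic

set_option autoImplicit false

/-!
# Two nonadjacent vertices of equal large degree
-/

namespace Pool.Agent.N425.P3

open Finset

variable {V : Type*} [Fintype V] [DecidableEq V] {G : SimpleGraph V} [DecidableRel G.Adj]

/-- `G` is a complete bipartite graph one of whose classes is `R`. -/
def BipOn (G : SimpleGraph V) (R : Finset V) : Prop :=
  ∀ v w, G.Adj v w ↔ ((v ∈ R ∧ w ∉ R) ∨ (v ∉ R ∧ w ∈ R))

theorem arith_one (e t r s k δ c n : ℕ) (hn : n = t + r + s) (hr : r = δ + k)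
    (hc : c = r + 2 * s + 1)
    (h : 2 * e + 4 * t + k ≤ 2 * t * (t + r) + 2 * (c * δ) + k * (k + 1) + δ * k + k * r +
      r * (2 * t)) :
    e + 3 * t + 2 * t * s + s + s ^ 2 + k * (2 * s + 1) ≤ n ^ 2 + n := by
  subst hn
  subst hc
  subst hr
  linarith

theorem arith_two (e t s k n : ℕ) (he : n ^ 2 + n ≤ e)
    (h : e + 3 * t + 2 * t * s + s + s ^ 2 + k * (2 * s + 1) ≤ n ^ 2 + n) :
    t = 0 ∧ s = 0 ∧ k = 0 := by
  have h1 : 3 * t + 2 * t * s + s + s ^ 2 + k * (2 * s + 1) ≤ 0 := by omega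
  have h2 : k * (2 * s + 1) = k + k * (2 * s) := by ring
  rw [h2] at h1
  generalize 2 * t * s = x at h1
  generalize s ^ 2 = y at h1
  generalize k * (2 * s) = z at h1
  omega

theorem caseOne (hP : NoPath G) (n : ℕ) (hV : Fintype.card V = 2 * n + 1) (x₁ x₂ : V)
    (hne : x₁ ≠ x₂) (hna : ¬ G.Adj x₁ x₂) (hd : G.degree x₁ = G.degree x₂)
    (hdn : n + 1 ≤ G.degree x₁) (he : n ^ 2 + n ≤ G.edgeFinset.card) :
    ∃ R : Finset V, R.card = n ∧ BipOn G R := by
  classical
  set N1 := G.neighborFinset x₁ with hN1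
  set N2 := G.neighborFinset x₂ with hN2
  have m1 : ∀ v, v ∈ N1 ↔ G.Adj x₁ v := by intro v; rw [hN1, SimpleGraph.mem_neighborFinset]
  have m2 : ∀ v, v ∈ N2 ↔ G.Adj x₂ v := by intro v; rw [hN2, SimpleGraph.mem_neighborFinset]
  have c1 : N1.card = G.degree x₁ := by rw [hN1, SimpleGraph.card_neighborFinset_eq_degree]
  have c2 : N2.card = G.degree x₁ := by rw [hN2, SimpleGraph.card_neighborFinset_eq_degree, hd]
  have hcross : ∀ y ∈ N1, ∀ z ∈ N2, ¬ G.Adj y z := by
    intro y hy z hz hyz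
    rw [m1] at hy
    rw [m2] at hz
    refine hP x₁ y z x₂ hy hyz hz.symm hne ?_ ?_ hd
    · rintro rfl; exact hna hz.symm
    · rintro rfl; exact hna hy
  set C := N1 ∩ N2 with hC
  set AB := (N1 ∪ N2) \ C with hAB
  set R := univ \ (N1 ∪ N2) with hR
  obtain ⟨t, ht⟩ : ∃ t, t = G.degree x₁ - C.card := ⟨_, rfl⟩
  have hCle : C.card ≤ G.degree x₁ := by
    rw [← c1]; exact card_le_card inter_subset_left
  have hun : (N1 ∪ N2).card + C.card = 2 * G.degree x₁ := by
    rw [hC, card_union_add_card_inter, c1, c2]; ring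
  have hCsub : C ⊆ N1 ∪ N2 := inter_subset_left.trans subset_union_left
  have hABc : AB.card = 2 * t := by
    rw [hAB, card_sdiff_of_subset hCsub]
    omega
  have hRc : R.card + (N1 ∪ N2).card = 2 * n + 1 := by
    rw [hR, card_sdiff_of_subset (subset_univ _), card_univ, hV]
    have := card_le_univ (N1 ∪ N2)
    rw [hV] at this
    omega
  obtain ⟨r, hr⟩ : ∃ r, r = R.card := ⟨_, rfl⟩
  obtain ⟨c, hc⟩ : ∃ c, c = C.card := ⟨_, rfl⟩
  obtain ⟨s, hs⟩ : ∃ s, t + r + s = n := ⟨n - (t + r), by omega⟩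
  have hcs : c = r + 2 * s + 1 := by omega
  -- membership in R
  have mR : ∀ v, v ∈ R ↔ (v ∉ N1 ∧ v ∉ N2) := by
    intro v
    rw [hR, mem_sdiff, mem_union]
    constructor
    · rintro ⟨_, h⟩
      exact ⟨fun h1 => h (Or.inl h1), fun h2 => h (Or.inr h2)⟩
    · rintro ⟨h1, h2⟩
      exact ⟨mem_univ _, fun h => h.elim h1 h2⟩
  -- neighbours of vertices of C
  have hCR : ∀ y ∈ C, G.neighborFinset y ⊆ R := by
    intro y hy z hz
    rw [SimpleGraph.mem_neighborFinset] at hz
    rw [hC, mem_inter] at hy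
    rw [mR]
    exact ⟨fun h => hcross z h y hy.2 hz.symm, fun h => hcross y hy.1 z h hz⟩
  have hdegC : ∀ y ∈ C, G.degree y ≤ r := by
    intro y hy
    rw [hr, ← SimpleGraph.card_neighborFinset_eq_degree]
    exact card_le_card (hCR y hy)
  -- neighbours of vertices of AB
  have hdegAB : ∀ y ∈ AB, G.degree y + 2 ≤ t + r := by
    have key : ∀ (y : V) (N : Finset V) (x : V), N.card = G.degree x₁ → y ∉ N → x ∉ N → y ≠ x →
        ¬ G.Adj y x → (∀ z ∈ N, ¬ G.Adj y z) → G.degree y + 2 ≤ t + r := by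
      intro y N x hNc hyN hxN hyx hyx' hyz
      have h1 : G.neighborFinset y ⊆ ((univ \ N).erase y).erase x := by
        intro z hz
        rw [SimpleGraph.mem_neighborFinset] at hz
        rw [mem_erase, mem_erase, mem_sdiff]
        refine ⟨?_, hz.ne', mem_univ _, fun h => hyz z h hz⟩
        rintro rfl
        exact hyx' hz
      have h2 := card_le_card h1
      have hy1 : y ∈ univ \ N := mem_sdiff.2 ⟨mem_univ _, hyN⟩
      have hx1 : x ∈ (univ \ N).erase y :=
        mem_erase.2 ⟨Ne.symm hyx, mem_sdiff.2 ⟨mem_univ _, hxN⟩⟩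
      have h3 := card_erase_of_mem hx1
      have h4 := card_erase_of_mem hy1
      have h5 : (univ \ N).card = 2 * n + 1 - G.degree x₁ := by
        rw [card_sdiff_of_subset (subset_univ _), card_univ, hV, hNc]
      have h6 : 0 < ((univ \ N).erase y).card := card_pos.2 ⟨x, hx1⟩
      rw [SimpleGraph.card_neighborFinset_eq_degree] at h2
      omega
    intro y hy
    rw [hAB, mem_sdiff, mem_union, hC, mem_inter] at hy
    rcases hy.1 with h | h
    · have hy2 : y ∉ N2 := fun h' => hy.2 ⟨h, h'⟩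
      refine key y N2 x₂ c2 hy2 ?_ ?_ ?_ (fun z hz => hcross y h z hz)
      · rw [m2]; exact G.loopless.irrefl x₂
      · rintro rfl; exact hna ((m1 _).1 h)
      · intro h'; exact hy2 ((m2 _).2 h'.symm)
    · have hy2 : y ∉ N1 := fun h' => hy.2 ⟨h', h⟩
      refine key y N1 x₁ c1 hy2 ?_ ?_ ?_ (fun z hz hyz => hcross z hz y h hyz.symm)
      · rw [m1]; exact G.loopless.irrefl x₁
      · rintro rfl; exact hna ((m2 _).1 h).symm
      · intro h'; exact hy2 ((m1 _).2 h'.symm)
  -- a repeated degree in C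
  have hposC : ∀ y ∈ C, 0 < G.degree y := by
    intro y hy
    rw [hC, mem_inter, m1] at hy
    rw [← SimpleGraph.card_neighborFinset_eq_degree, card_pos]
    exact ⟨x₁, by rw [SimpleGraph.mem_neighborFinset]; exact hy.1.symm⟩
  have hrep : ∃ y ∈ C, ∃ y' ∈ C, y ≠ y' ∧ G.degree y = G.degree y' := by
    by_contra hcon
    push Not at hcon
    have h1 := card_inj_le C (fun v => G.degree v) 0 r
      (by
        intro x hx y hy hxy
        by_contra h
        exact hcon x hx y hy h hxy)
      (fun x hx => hposC x hx)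
      (fun x hx => by
        show G.degree x ≤ 0 + r
        have := hdegC x hx
        omega)
    omega
  obtain ⟨y₁, y₂, hy1, hy2, hy12, hyd, hymax⟩ : ∃ y₁ y₂ : V, y₁ ∈ C ∧ y₂ ∈ C ∧ y₁ ≠ y₂ ∧
      G.degree y₁ = G.degree y₂ ∧ ∀ z ∈ C, ∀ z' ∈ C, z ≠ z' → G.degree z = G.degree z' →
        G.degree z ≤ G.degree y₁ := by
    set PP := (C ×ˢ C).filter (fun p => p.1 ≠ p.2 ∧ G.degree p.1 = G.degree p.2) with hPP
    have hne' : PP.Nonempty := by
      obtain ⟨y, hy, y', hy', h1, h2⟩ := hrep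
      exact ⟨(y, y'), by rw [hPP, mem_filter, mem_product]; exact ⟨⟨hy, hy'⟩, h1, h2⟩⟩
    obtain ⟨p, hp, hpm⟩ := exists_max_image PP (fun p => G.degree p.1) hne'
    rw [hPP, mem_filter, mem_product] at hp
    refine ⟨p.1, p.2, hp.1.1, hp.1.2, hp.2.1, hp.2.2, ?_⟩
    intro z hz z' hz' h1 h2
    exact hpm (z, z') (by rw [hPP, mem_filter, mem_product]; exact ⟨⟨hz, hz'⟩, h1, h2⟩)
  obtain ⟨δ, hδ⟩ : ∃ δ, δ = G.degree y₁ := ⟨_, rfl⟩
  obtain ⟨k, hk⟩ : ∃ k, δ + k = r := ⟨r - δ, by have := hdegC y₁ hy1; omega⟩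
  -- the degrees in C
  have hE : 2 * ∑ y ∈ C, G.degree y ≤ 2 * (c * δ) + k * (k + 1) := by
    have h1 : ∑ y ∈ C, G.degree y ≤ c * δ + ∑ y ∈ C, (G.degree y - δ) := by
      rw [hc, ← smul_eq_mul, ← sum_const, ← sum_add_distrib]
      apply sum_le_sum
      intro y _
      omega
    have h2 : ∑ y ∈ C, (G.degree y - δ) =
        ∑ y ∈ C.filter (fun v => δ < G.degree v), (G.degree y - δ) := by
      rw [sum_filter]
      apply sum_congr rfl
      intro v _
      by_cases h : δ < G.degree v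
      · rw [if_pos h]
      · rw [if_neg h]; omega
    have h3 := sum_inj_le (C.filter (fun v => δ < G.degree v)) (fun v => G.degree v) δ k
      (by
        intro x hx y hy hxy
        rw [mem_filter] at hx hy
        by_contra h
        have := hymax x hx.1 y hy.1 h hxy
        omega)
      (fun x hx => (mem_filter.1 hx).2)
      (fun x hx => by
        show G.degree x ≤ δ + k
        have := hdegC x (mem_filter.1 hx).1
        omega)
    omega
  -- the degrees inside R
  have hM1 : G.neighborFinset y₁ ⊆ R := hCR y₁ hy1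
  have hyR : ∀ y ∈ C, y ∉ R := by
    intro y hy h
    rw [hC, mem_inter] at hy
    rw [mR] at h
    exact h.1 hy.1
  have hF1 : ∀ z ∈ G.neighborFinset y₁, (G.neighborFinset z ∩ R).card ≤ k := by
    intro z hz
    have hzR := hM1 hz
    rw [SimpleGraph.mem_neighborFinset] at hz
    have h1 : G.neighborFinset z ∩ R ⊆ R \ G.neighborFinset y₂ := by
      intro w hw
      rw [mem_inter, SimpleGraph.mem_neighborFinset] at hw
      rw [mem_sdiff, SimpleGraph.mem_neighborFinset]
      refine ⟨hw.2, fun h => ?_⟩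
      refine hP y₁ z w y₂ hz hw.1 h.symm hy12 ?_ ?_ hyd
      · rintro rfl; exact hyR _ hy1 hw.2
      · rintro rfl; exact hyR _ hy2 hzR
    have h2 := card_le_card h1
    rw [card_sdiff_of_subset (hCR y₂ hy2), SimpleGraph.card_neighborFinset_eq_degree] at h2
    omega
  have hF2 : ∀ z ∈ R, (G.neighborFinset z ∩ R).card + 1 ≤ r := by
    intro z hz
    have h1 : G.neighborFinset z ∩ R ⊆ R.erase z := by
      intro w hw
      rw [mem_inter, SimpleGraph.mem_neighborFinset] at hw
      rw [mem_erase]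
      exact ⟨hw.1.ne', hw.2⟩
    have h2 := card_le_card h1
    rw [card_erase_of_mem hz] at h2
    have h3 : 0 < R.card := card_pos.2 ⟨z, hz⟩
    omega
  have hF : ∑ z ∈ R, (G.neighborFinset z ∩ R).card + k ≤ δ * k + k * r := by
    have h1 : ∑ z ∈ R, (G.neighborFinset z ∩ R).card =
        ∑ z ∈ R \ G.neighborFinset y₁, (G.neighborFinset z ∩ R).card +
        ∑ z ∈ G.neighborFinset y₁, (G.neighborFinset z ∩ R).card := (sum_sdiff hM1).symm
    have h2 : ∑ z ∈ G.neighborFinset y₁, (G.neighborFinset z ∩ R).card ≤ δ * k := by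
      have := sum_le_card_nsmul (G.neighborFinset y₁) (fun z => (G.neighborFinset z ∩ R).card) k
        hF1
      rw [SimpleGraph.card_neighborFinset_eq_degree, smul_eq_mul, ← hδ] at this
      exact this
    have h3c : (R \ G.neighborFinset y₁).card = k := by
      rw [card_sdiff_of_subset hM1, SimpleGraph.card_neighborFinset_eq_degree]
      omega
    have h3 : ∑ z ∈ R \ G.neighborFinset y₁, ((G.neighborFinset z ∩ R).card + 1) ≤ k * r := by
      have := sum_le_card_nsmul (R \ G.neighborFinset y₁)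
        (fun z => (G.neighborFinset z ∩ R).card + 1) r
        (fun z hz => hF2 z (mem_sdiff.1 hz).1)
      rw [h3c, smul_eq_mul] at this
      exact this
    rw [sum_add_distrib, sum_const, h3c, smul_eq_mul, mul_one] at h3
    omega
  -- degrees of the vertices of R
  have hRdeg : ∀ z ∈ R, G.degree z ≤ (G.neighborFinset z ∩ R).card +
      (G.neighborFinset z ∩ C).card + 2 * t := by
    intro z _
    have h1 : G.neighborFinset z ⊆ (G.neighborFinset z ∩ R) ∪ (G.neighborFinset z ∩ C) ∪ AB := by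
      intro w hw
      rw [mem_union, mem_union, mem_inter, mem_inter]
      by_cases h2 : w ∈ N1 ∪ N2
      · by_cases h3 : w ∈ C
        · exact Or.inl (Or.inr ⟨hw, h3⟩)
        · exact Or.inr (mem_sdiff.2 ⟨h2, h3⟩)
      · exact Or.inl (Or.inl ⟨hw, mem_sdiff.2 ⟨mem_univ _, h2⟩⟩)
    have h2 := card_le_card h1
    have h3 := card_union_le ((G.neighborFinset z ∩ R) ∪ (G.neighborFinset z ∩ C)) AB
    have h4 := card_union_le (G.neighborFinset z ∩ R) (G.neighborFinset z ∩ C)
    rw [SimpleGraph.card_neighborFinset_eq_degree] at h2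
    omega
  have hcc := cross_count (G := G) R C
  have hCC : ∑ y ∈ C, (G.neighborFinset y ∩ R).card = ∑ y ∈ C, G.degree y := by
    apply sum_congr rfl
    intro y hy
    rw [inter_eq_left.2 (hCR y hy), SimpleGraph.card_neighborFinset_eq_degree]
  have hRsum : ∑ z ∈ R, G.degree z ≤ ∑ z ∈ R, (G.neighborFinset z ∩ R).card +
      ∑ y ∈ C, G.degree y + r * (2 * t) := by
    have := sum_le_sum hRdeg
    rw [sum_add_distrib, sum_add_distrib, sum_const, smul_eq_mul, hcc, hCC, ← hr] at this
    exact this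
  have hABsum : ∑ y ∈ AB, G.degree y + 4 * t ≤ 2 * t * (t + r) := by
    have := sum_le_card_nsmul AB (fun y => G.degree y + 2) (t + r) hdegAB
    rw [sum_add_distrib, sum_const, smul_eq_mul, smul_eq_mul, hABc] at this
    omega
  have htot : ∑ v, G.degree v = ∑ z ∈ R, G.degree z + (∑ y ∈ AB, G.degree y +
      ∑ y ∈ C, G.degree y) := by
    rw [hAB, sum_sdiff hCsub, hR, sum_sdiff (subset_univ _)]
  have h2e := two_e (G := G)
  have hmain : 2 * G.edgeFinset.card + 4 * t + k ≤ 2 * t * (t + r) + 2 * (c * δ) + k * (k + 1) +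
      δ * k + k * r + r * (2 * t) := by
    omega
  have hn : n = t + r + s := by omega
  have hr' : r = δ + k := by omega
  have hkey := arith_one G.edgeFinset.card t r s k δ c n hn hr' hcs hmain
  obtain ⟨ht0, hs0, hk0⟩ := arith_two G.edgeFinset.card t s k n he hkey
  subst ht0 hs0 hk0
  have hrn : r = n := by omega
  have hcn : c = n + 1 := by omega
  have hF0 : ∑ z ∈ R, (G.neighborFinset z ∩ R).card = 0 := by
    have := hF
    omega
  have hAB0 : AB = ∅ := by
    rw [← card_eq_zero, hABc]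
  have hCn : ∀ v, v ∈ C ↔ v ∉ R := by
    intro v
    constructor
    · exact hyR v
    · intro h
      have h1 : v ∈ N1 ∪ N2 := by
        by_contra h2
        exact h (mem_sdiff.2 ⟨mem_univ _, h2⟩)
      by_contra h3
      have h4 : v ∈ AB := mem_sdiff.2 ⟨h1, h3⟩
      rw [hAB0] at h4
      exact notMem_empty _ h4
  have hCdeg : ∑ y ∈ C, G.degree y = c * n := by
    have h1 : ∑ y ∈ AB, G.degree y = 0 := by rw [hAB0, sum_empty]
    have h2 : ∑ y ∈ C, G.degree y ≤ c * n := by
      have := sum_le_card_nsmul C (fun y => G.degree y) r hdegC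
      rw [smul_eq_mul, ← hc, hrn] at this
      exact this
    have h3 : 2 * (n ^ 2 + n) ≤ 2 * ∑ y ∈ C, G.degree y := by
      omega
    have h4 : c * n = n ^ 2 + n := by rw [hcn]; ring
    omega
  have hCall : ∀ y ∈ C, G.degree y = n := by
    by_contra hcon
    push Not at hcon
    obtain ⟨y, hy, hyn⟩ := hcon
    have h1 : ∑ y ∈ C, G.degree y < ∑ y ∈ C, n := by
      apply sum_lt_sum
      · intro z hz
        have := hdegC z hz
        omega
      · exact ⟨y, hy, by have := hdegC y hy; omega⟩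
    rw [sum_const, smul_eq_mul, ← hc, hCdeg] at h1
    omega
  have hCN : ∀ y ∈ C, G.neighborFinset y = R := by
    intro y hy
    apply eq_of_subset_of_card_le (hCR y hy)
    rw [SimpleGraph.card_neighborFinset_eq_degree, hCall y hy]
    omega
  refine ⟨R, by omega, ?_⟩
  intro v w
  constructor
  · intro h
    by_cases hv : v ∈ R
    · left
      refine ⟨hv, fun hw => ?_⟩
      have h1 := (sum_eq_zero_iff.1 hF0) v hv
      rw [card_eq_zero] at h1
      have h2 : w ∈ G.neighborFinset v ∩ R :=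
        mem_inter.2 ⟨by rw [SimpleGraph.mem_neighborFinset]; exact h, hw⟩
      rw [h1] at h2
      exact notMem_empty _ h2
    · right
      refine ⟨hv, ?_⟩
      have h1 := hCN v ((hCn v).2 hv)
      rw [← h1, SimpleGraph.mem_neighborFinset]
      exact h
  · rintro (⟨h1, h2⟩ | ⟨h1, h2⟩)
    · have h3 := hCN w ((hCn w).2 h2)
      rw [← h3, SimpleGraph.mem_neighborFinset] at h1
      exact h1.symm
    · have h3 := hCN v ((hCn v).2 h1)
      rw [← h3, SimpleGraph.mem_neighborFinset] at h2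
      exact h2

end Pool.Agent.N425.P3
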