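import Pool.Agent.N425.P3.Basic

set_option autoImplicit false

/-!
# Two adjacent vertices of equal large degree
-/

namespace Pool.Agent.N425.P3

open Finset

variable {V : Type*} [Fintype V] [DecidableEq V] {G : SimpleGraph V} [DecidableRel G.Adj]

theorem arith_three (e t r n : ℕ) (hn : n = t + r + 1)
    (h : 2 * e + r ≤ 2 * (t + (r + 1) + 1) + 2 * t * (t + r) + 2 * (r + 1) + (r * (r + 1)) +
      r * r + r * (2 * t)) : e + n ≤ n ^ 2 + r + 3 := by
  subst hn
  linarith

theorem caseTwo (hP : NoPath G) (n : ℕ) (hn2 : 2 ≤ n) (hV : Fintype.card V = 2 * n + 1)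
    (x₁ x₂ : V) (hadj : G.Adj x₁ x₂) (hd : G.degree x₁ = G.degree x₂)
    (hdn : n + 1 ≤ G.degree x₁) (he : n ^ 2 + n ≤ G.edgeFinset.card) : False := by
  classical
  set N1 := (G.neighborFinset x₁).erase x₂ with hN1
  set N2 := (G.neighborFinset x₂).erase x₁ with hN2
  have m1 : ∀ v, v ∈ N1 ↔ v ≠ x₂ ∧ G.Adj x₁ v := by
    intro v; rw [hN1, mem_erase, SimpleGraph.mem_neighborFinset]
  have m2 : ∀ v, v ∈ N2 ↔ v ≠ x₁ ∧ G.Adj x₂ v := by
    intro v; rw [hN2, mem_erase, SimpleGraph.mem_neighborFinset]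
  have c1 : N1.card + 1 = G.degree x₁ := by
    rw [hN1, card_erase_of_mem (by rw [SimpleGraph.mem_neighborFinset]; exact hadj),
      SimpleGraph.card_neighborFinset_eq_degree]
    omega
  have c2 : N2.card + 1 = G.degree x₁ := by
    rw [hN2, card_erase_of_mem (by rw [SimpleGraph.mem_neighborFinset]; exact hadj.symm),
      SimpleGraph.card_neighborFinset_eq_degree]
    omega
  have hx12 : x₁ ≠ x₂ := hadj.ne
  have hcross : ∀ y ∈ N1, ∀ z ∈ N2, ¬ G.Adj y z := by
    intro y hy z hz hyz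
    rw [m1] at hy
    rw [m2] at hz
    exact hP x₁ y z x₂ hy.2 hyz hz.2.symm hx12 (Ne.symm hz.1) hy.1 hd
  set C := N1 ∩ N2 with hC
  set AB := (N1 ∪ N2) \ C with hAB
  set R := (univ \ (N1 ∪ N2)) \ {x₁, x₂} with hR
  have hx1n : x₁ ∉ N1 ∪ N2 := by
    rw [mem_union, m1, m2]
    rintro (h | h)
    · exact G.loopless.irrefl x₁ h.2
    · exact h.1 rfl
  have hx2n : x₂ ∉ N1 ∪ N2 := by
    rw [mem_union, m1, m2]
    rintro (h | h)
    · exact h.1 rfl
    · exact G.loopless.irrefl x₂ h.2
  have hCle : C.card ≤ N1.card := card_le_card inter_subset_left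
  obtain ⟨t, ht⟩ : ∃ t, t + C.card = N1.card := ⟨N1.card - C.card, by omega⟩
  have hun : (N1 ∪ N2).card + C.card = N1.card + N2.card := by
    rw [hC, card_union_add_card_inter]
  have hCsub : C ⊆ N1 ∪ N2 := inter_subset_left.trans subset_union_left
  have hABc : AB.card = 2 * t := by
    rw [hAB, card_sdiff_of_subset hCsub]
    omega
  have hxsub : ({x₁, x₂} : Finset V) ⊆ univ \ (N1 ∪ N2) := by
    intro v hv
    rw [mem_insert, mem_singleton] at hv
    rw [mem_sdiff]
    rcases hv with rfl | rfl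
    · exact ⟨mem_univ _, hx1n⟩
    · exact ⟨mem_univ _, hx2n⟩
  have hRc : R.card + (N1 ∪ N2).card + 2 = 2 * n + 1 := by
    have h1 := card_le_univ (N1 ∪ N2)
    rw [hV] at h1
    have h2 := card_le_card hxsub
    rw [card_pair hx12, card_sdiff_of_subset (subset_univ _), card_univ, hV] at h2
    rw [hR, card_sdiff_of_subset hxsub, card_sdiff_of_subset (subset_univ _), card_univ, hV,
      card_pair hx12]
    omega
  obtain ⟨r, hr⟩ : ∃ r, r = R.card := ⟨_, rfl⟩
  obtain ⟨c, hc⟩ : ∃ c, c = C.card := ⟨_, rfl⟩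
  have mR : ∀ v, v ∈ R ↔ (v ∉ N1 ∪ N2 ∧ v ≠ x₁ ∧ v ≠ x₂) := by
    intro v
    rw [hR, mem_sdiff, mem_sdiff, mem_insert, mem_singleton]
    constructor
    · rintro ⟨⟨_, h⟩, h2⟩
      exact ⟨h, fun h3 => h2 (Or.inl h3), fun h3 => h2 (Or.inr h3)⟩
    · rintro ⟨h1, h2, h3⟩
      exact ⟨⟨mem_univ _, h1⟩, fun h => h.elim h2 h3⟩
  have mC : ∀ v, v ∈ C ↔ (v ≠ x₁ ∧ v ≠ x₂ ∧ G.Adj x₁ v ∧ G.Adj x₂ v) := by
    intro v
    rw [hC, mem_inter, m1, m2]
    tauto
  -- distinct degrees in C
  have hCdist : ∀ y ∈ C, ∀ y' ∈ C, y ≠ y' → G.degree y ≠ G.degree y' := by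
    intro y hy y' hy' hne
    rw [mC] at hy hy'
    exact hP y x₁ x₂ y' hy.2.2.1.symm hadj hy'.2.2.2 hne hy.2.1 hy'.1.symm
  have hCdeg : ∀ y ∈ C, G.degree y = (G.neighborFinset y ∩ R).card + 2 := by
    intro y hy
    have hy' := (mC y).1 hy
    have h1 : G.neighborFinset y = (G.neighborFinset y ∩ R) ∪ {x₁, x₂} := by
      ext z
      rw [mem_union, mem_inter, SimpleGraph.mem_neighborFinset, mem_insert, mem_singleton, mR]
      constructor
      · intro hz
        by_cases h1 : z = x₁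
        · exact Or.inr (Or.inl h1)
        by_cases h2 : z = x₂
        · exact Or.inr (Or.inr h2)
        refine Or.inl ⟨hz, ?_, h1, h2⟩
        rw [mem_union]
        rintro (h | h)
        · exact hcross z h y (mem_inter.1 hy).2 hz.symm
        · exact hcross y (mem_inter.1 hy).1 z h hz
      · rintro (h | h | h)
        · exact h.1
        · rw [h]; exact hy'.2.2.1.symm
        · rw [h]; exact hy'.2.2.2.symm
    have h2 : Disjoint (G.neighborFinset y ∩ R) {x₁, x₂} := by
      rw [Finset.disjoint_left]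
      intro z hz h
      rw [mem_inter, mR] at hz
      rw [mem_insert, mem_singleton] at h
      rcases h with h | h
      · exact hz.2.2.1 h
      · exact hz.2.2.2 h
    rw [← SimpleGraph.card_neighborFinset_eq_degree]
    conv_lhs => rw [h1]
    rw [card_union_of_disjoint h2, card_pair hx12]
  have hfle : ∀ y, (G.neighborFinset y ∩ R).card ≤ r := by
    intro y
    rw [hr]
    exact card_le_card inter_subset_right
  have hfinj : ∀ x ∈ C, ∀ y ∈ C, (G.neighborFinset x ∩ R).card = (G.neighborFinset y ∩ R).card →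
      x = y := by
    intro x hx y hy hxy
    by_contra h
    apply hCdist x hx y hy h
    rw [hCdeg x hx, hCdeg y hy, hxy]
  have hcle : c ≤ r + 1 := by
    rw [hc]
    apply card_inj_le C (fun y => (G.neighborFinset y ∩ R).card + 1) 0 (r + 1)
    · intro x hx y hy hxy
      apply hfinj x hx y hy
      have : (G.neighborFinset x ∩ R).card + 1 = (G.neighborFinset y ∩ R).card + 1 := hxy
      omega
    · intro x _
      show 0 < (G.neighborFinset x ∩ R).card + 1
      omega
    · intro x _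
      show (G.neighborFinset x ∩ R).card + 1 ≤ 0 + (r + 1)
      have := hfle x
      omega
  have hcr : c = r + 1 := by omega
  have hntr : n = t + r + 1 := by omega
  have hE : 2 * ∑ y ∈ C, (G.neighborFinset y ∩ R).card ≤ r * (r + 1) := by
    have h2 : ∑ y ∈ C, (G.neighborFinset y ∩ R).card =
        ∑ y ∈ C.filter (fun y => 0 < (G.neighborFinset y ∩ R).card),
          ((G.neighborFinset y ∩ R).card - 0) := by
      rw [sum_filter]
      apply sum_congr rfl
      intro v _
      by_cases h : 0 < (G.neighborFinset v ∩ R).card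
      · rw [if_pos h]; omega
      · rw [if_neg h]; omega
    rw [h2]
    apply sum_inj_le
    · intro x hx y hy hxy
      exact hfinj x (mem_filter.1 hx).1 y (mem_filter.1 hy).1 hxy
    · intro x hx
      exact (mem_filter.1 hx).2
    · intro x _
      have := hfle x
      omega
  have hdegAB : ∀ y ∈ AB, G.degree y ≤ t + r := by
    have key : ∀ (y : V) (N : Finset V) (x : V), N.card + 1 = G.degree x₁ → y ∉ N → x ∉ N →
        y ≠ x → ¬ G.Adj y x → (∀ z ∈ N, ¬ G.Adj y z) → G.degree y ≤ t + r := by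
      intro y N x hNc hyN hxN hyx hyx' hyz
      have h1 : G.neighborFinset y ⊆ ((univ \ N).erase y).erase x := by
        intro z hz
        rw [SimpleGraph.mem_neighborFinset] at hz
        rw [mem_erase, mem_erase, mem_sdiff]
        refine ⟨?_, hz.ne', mem_univ _, fun h => hyz z h hz⟩
        rintro rfl
        exact hyx' hz
      have h2 := card_le_card h1
      have hy1 : y ∈ univ \ N := mem_sdiff.2 ⟨mem_univ _, hyN⟩
      have hx1 : x ∈ (univ \ N).erase y :=
        mem_erase.2 ⟨Ne.symm hyx, mem_sdiff.2 ⟨mem_univ _, hxN⟩⟩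
      have h3 := card_erase_of_mem hx1
      have h4 := card_erase_of_mem hy1
      have h5 : (univ \ N).card = 2 * n + 1 - N.card := by
        rw [card_sdiff_of_subset (subset_univ _), card_univ, hV]
      have h6 : 0 < ((univ \ N).erase y).card := card_pos.2 ⟨x, hx1⟩
      rw [SimpleGraph.card_neighborFinset_eq_degree] at h2
      omega
    intro y hy
    rw [hAB, mem_sdiff, mem_union, hC, mem_inter] at hy
    rcases hy.1 with h | h
    · have hy2 : y ∉ N2 := fun h' => hy.2 ⟨h, h'⟩
      have hyx1 : y ≠ x₁ := by rintro rfl; exact hx1n (mem_union.2 (Or.inl h))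
      have hyx2 : y ≠ x₂ := by rintro rfl; exact hx2n (mem_union.2 (Or.inl h))
      refine key y N2 x₂ c2 hy2 (fun h' => hx2n (mem_union.2 (Or.inr h'))) hyx2 ?_
        (fun z hz => hcross y h z hz)
      intro h'
      exact hy2 ((m2 _).2 ⟨hyx1, h'.symm⟩)
    · have hy2 : y ∉ N1 := fun h' => hy.2 ⟨h', h⟩
      have hyx1 : y ≠ x₁ := by rintro rfl; exact hx1n (mem_union.2 (Or.inr h))
      have hyx2 : y ≠ x₂ := by rintro rfl; exact hx2n (mem_union.2 (Or.inr h))
      refine key y N1 x₁ c1 hy2 (fun h' => hx1n (mem_union.2 (Or.inl h'))) hyx1 ?_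
        (fun z hz hyz => hcross z hz y h hyz.symm)
      intro h'
      exact hy2 ((m1 _).2 ⟨hyx2, h'.symm⟩)
  have hF2 : ∀ z ∈ R, (G.neighborFinset z ∩ R).card + 1 ≤ r := by
    intro z hz
    have h1 : G.neighborFinset z ∩ R ⊆ R.erase z := by
      intro w hw
      rw [mem_inter, SimpleGraph.mem_neighborFinset] at hw
      rw [mem_erase]
      exact ⟨hw.1.ne', hw.2⟩
    have h2 := card_le_card h1
    rw [card_erase_of_mem hz] at h2
    have h3 : 0 < R.card := card_pos.2 ⟨z, hz⟩
    omega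
  have hF : ∑ z ∈ R, (G.neighborFinset z ∩ R).card + r ≤ r * r := by
    have := sum_le_card_nsmul R (fun z => (G.neighborFinset z ∩ R).card + 1) r hF2
    rw [sum_add_distrib, sum_const, smul_eq_mul, smul_eq_mul, mul_one, ← hr] at this
    exact this
  have hRdeg : ∀ z ∈ R, G.degree z ≤ (G.neighborFinset z ∩ R).card +
      (G.neighborFinset z ∩ C).card + 2 * t := by
    intro z hz
    have hz' := (mR z).1 hz
    have h1 : G.neighborFinset z ⊆ (G.neighborFinset z ∩ R) ∪ (G.neighborFinset z ∩ C) ∪ AB := by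
      intro w hw
      rw [mem_union, mem_union, mem_inter, mem_inter]
      have hzw : G.Adj z w := by rwa [SimpleGraph.mem_neighborFinset] at hw
      by_cases h2 : w ∈ N1 ∪ N2
      · by_cases h3 : w ∈ C
        · exact Or.inl (Or.inr ⟨hw, h3⟩)
        · exact Or.inr (mem_sdiff.2 ⟨h2, h3⟩)
      · refine Or.inl (Or.inl ⟨hw, (mR w).2 ⟨h2, ?_, ?_⟩⟩)
        · rintro rfl
          exact hz'.1 (mem_union.2 (Or.inl ((m1 z).2 ⟨hz'.2.2, hzw.symm⟩)))
        · rintro rfl
          exact hz'.1 (mem_union.2 (Or.inr ((m2 z).2 ⟨hz'.2.1, hzw.symm⟩)))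
    have h2 := card_le_card h1
    have h3 := card_union_le ((G.neighborFinset z ∩ R) ∪ (G.neighborFinset z ∩ C)) AB
    have h4 := card_union_le (G.neighborFinset z ∩ R) (G.neighborFinset z ∩ C)
    rw [SimpleGraph.card_neighborFinset_eq_degree] at h2
    omega
  have hcc := cross_count (G := G) R C
  have hRsum : ∑ z ∈ R, G.degree z ≤ ∑ z ∈ R, (G.neighborFinset z ∩ R).card +
      ∑ y ∈ C, (G.neighborFinset y ∩ R).card + r * (2 * t) := by
    have := sum_le_sum hRdeg
    rw [sum_add_distrib, sum_add_distrib, sum_const, smul_eq_mul, hcc, ← hr] at this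
    exact this
  have hCsum : ∑ y ∈ C, G.degree y = ∑ y ∈ C, (G.neighborFinset y ∩ R).card + c * 2 := by
    rw [sum_congr rfl hCdeg, sum_add_distrib, sum_const, smul_eq_mul, ← hc]
  have hABsum : ∑ y ∈ AB, G.degree y ≤ 2 * t * (t + r) := by
    have := sum_le_card_nsmul AB (fun y => G.degree y) (t + r) hdegAB
    rw [smul_eq_mul, hABc] at this
    exact this
  have htot : ∑ v, G.degree v = ∑ z ∈ R, G.degree z + (G.degree x₁ + G.degree x₂) +
      (∑ y ∈ AB, G.degree y + ∑ y ∈ C, G.degree y) := by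
    rw [hAB, sum_sdiff hCsub]
    have h1 : G.degree x₁ + G.degree x₂ = ∑ v ∈ ({x₁, x₂} : Finset V), G.degree v := by
      rw [sum_pair hx12]
    rw [h1, hR, sum_sdiff hxsub, sum_sdiff (subset_univ _)]
  have h2e := two_e (G := G)
  have hdt : G.degree x₁ = t + (r + 1) + 1 := by omega
  have hmain : 2 * G.edgeFinset.card + r ≤ 2 * (t + (r + 1) + 1) + 2 * t * (t + r) +
      2 * (r + 1) + (r * (r + 1)) + r * r + r * (2 * t) := by
    omega
  have hkey := arith_three G.edgeFinset.card t r n hntr hmain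
  -- only `n = 2` remains
  have hn : n = 2 := by omega
  have hr1 : r = 1 := by omega
  have ht0 : t = 0 := by omega
  have hdx : G.degree x₁ = 3 := by omega
  have hC2 : C.card = 2 := by omega
  obtain ⟨y, y', hyy, hCe⟩ := card_eq_two.1 hC2
  have hy : y ∈ C := by rw [hCe]; simp
  have hy' : y' ∈ C := by rw [hCe]; simp
  have hnd : ∀ z ∈ C, ∀ z' ∈ C, z ≠ z' → G.degree z ≠ 3 := by
    intro z hz z' hz' hne h3
    rw [mC] at hz hz'
    exact hP x₁ z' x₂ z hz'.2.2.1 hz'.2.2.2.symm hz.2.2.2 hz.1.symm hx12 (Ne.symm hne)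
      (hdx.trans h3.symm)
  have h1 := hnd y hy y' hy' hyy
  have h2 := hnd y' hy' y hy (Ne.symm hyy)
  have h3 := hCdist y hy y' hy' hyy
  have h4 := hCdeg y hy
  have h5 := hCdeg y' hy'
  have h6 := hfle y
  have h7 := hfle y'
  omega

end Pool.Agent.N425.P3
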