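import Pool.Agent.N425.P3.Step2
import Pool.Agent.N425.P3.CaseOne
import Pool.Agent.N425.P3.CaseTwo

set_option autoImplicit false

/-!
# Graphs with `2 n + 1` vertices and at least `n ^ 2 + n` edges
-/

namespace Pool.Agent.N425.P3

open Finset

variable {V : Type*} [Fintype V] [DecidableEq V] {G : SimpleGraph V} [DecidableRel G.Adj]

/-- The case `n = 2` with a vertex of degree four. -/
theorem five (hP : NoPath G) (hV : Fintype.card V = 5) (he : 6 ≤ G.edgeFinset.card)
    (hdist : ∀ x y : V, x ≠ y → G.degree x = G.degree y → G.degree x ≤ 2) (u : V)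
    (hu : G.degree u = 4) : False := by
  classical
  have hNU : G.neighborFinset u = univ.erase u := by
    apply eq_of_subset_of_card_le
    · intro v hv
      rw [SimpleGraph.mem_neighborFinset] at hv
      exact mem_erase.2 ⟨hv.ne', mem_univ _⟩
    · rw [card_erase_of_mem (mem_univ u), card_univ, hV, SimpleGraph.card_neighborFinset_eq_degree,
        hu]
  have hadj : ∀ v, v ≠ u → G.Adj u v := by
    intro v hv
    rw [← SimpleGraph.mem_neighborFinset, hNU]
    exact mem_erase.2 ⟨hv, mem_univ _⟩
  have hlt : ∀ v, v ≠ u → G.degree v ≤ 3 := by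
    intro v hv
    have h1 : G.degree v ≤ 4 := by
      have := G.degree_lt_card_verts v
      omega
    by_contra h
    have h2 := hdist v u hv (by omega)
    omega
  have hsum : 8 ≤ ∑ v ∈ univ.erase u, G.degree v := by
    have h1 := Finset.add_sum_erase univ (fun v => G.degree v) (mem_univ u)
    have h2 := two_e (G := G)
    have h3 : G.degree u + ∑ v ∈ univ.erase u, G.degree v = ∑ v, G.degree v := h1
    omega
  have hcard : (univ.erase u).card = 4 := by
    rw [card_erase_of_mem (mem_univ u), card_univ, hV]
  by_cases h3 : ∃ x, x ≠ u ∧ G.degree x = 3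
  · obtain ⟨x, hxu, hx3⟩ := h3
    have h4 : 1 < ((G.neighborFinset x).erase u).card := by
      rw [card_erase_of_mem (by rw [SimpleGraph.mem_neighborFinset]; exact (hadj x hxu).symm),
        SimpleGraph.card_neighborFinset_eq_degree, hx3]
      norm_num
    obtain ⟨p, hp, q, hq, hpq⟩ := one_lt_card.1 h4
    rw [mem_erase, SimpleGraph.mem_neighborFinset] at hp hq
    have h5 := hP p x u q hp.2.symm (hadj x hxu).symm (hadj q hq.1) hpq hp.1 hq.2.ne
    have h6 : ∀ z, z ≠ u → G.Adj x z → G.degree z = 2 := by
      intro z hz hxz
      have h7 : 2 ≤ G.degree z := by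
        rw [← SimpleGraph.card_neighborFinset_eq_degree]
        have h8 : ({u, x} : Finset V) ⊆ G.neighborFinset z := by
          intro w hw
          rw [mem_insert, mem_singleton] at hw
          rw [SimpleGraph.mem_neighborFinset]
          rcases hw with rfl | rfl
          · exact (hadj z hz).symm
          · exact hxz.symm
        have h9 := card_le_card h8
        rw [card_pair hxu.symm] at h9
        exact h9
      have h8 := hlt z hz
      by_contra h9
      have h10 := hdist x z hxz.ne (by omega)
      omega
    exact h5 ((h6 p hp.1 hp.2).trans (h6 q hq.1 hq.2).symm)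
  · push Not at h3
    have h4 : ∀ v ∈ univ.erase u, G.degree v ≤ 2 := by
      intro v hv
      rw [mem_erase] at hv
      have h5 := hlt v hv.1
      have h6 := h3 v hv.1
      omega
    have h5 : ∀ v ∈ univ.erase u, G.degree v = 2 := by
      by_contra hcon
      push Not at hcon
      obtain ⟨v, hv, hv2⟩ := hcon
      have h6 : ∑ v ∈ univ.erase u, G.degree v < ∑ v ∈ univ.erase u, 2 := by
        apply sum_lt_sum h4
        exact ⟨v, hv, by have := h4 v hv; omega⟩
      rw [sum_const, hcard] at h6
      simp at h6
      omega
    obtain ⟨x, hx⟩ : (univ.erase u).Nonempty := by rw [← card_pos, hcard]; norm_num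
    have hxu := (mem_erase.1 hx).1
    have hx2 := h5 x hx
    have h6 : 0 < ((G.neighborFinset x).erase u).card := by
      rw [card_erase_of_mem (by rw [SimpleGraph.mem_neighborFinset]; exact (hadj x hxu).symm),
        SimpleGraph.card_neighborFinset_eq_degree, hx2]
      norm_num
    obtain ⟨x', hx'⟩ := card_pos.1 h6
    rw [mem_erase, SimpleGraph.mem_neighborFinset] at hx'
    obtain ⟨w, hw⟩ : (univ \ {u, x, x'} : Finset V).Nonempty := by
      rw [← card_pos, card_sdiff_of_subset (subset_univ _), card_univ, hV]
      have : ({u, x, x'} : Finset V).card ≤ 3 := card_le_three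
      omega
    rw [mem_sdiff, mem_insert, mem_insert, mem_singleton] at hw
    push Not at hw
    have h7 := hP x x' u w hx'.2 (hadj x' hx'.1).symm (hadj w hw.2.1) (Ne.symm hw.2.2.1) hxu
      (Ne.symm hw.2.2.2)
    exact h7 (hx2.trans (h5 w (mem_erase.2 ⟨hw.2.1, mem_univ _⟩)).symm)

theorem main (hP : NoPath G) (n : ℕ) (hn : 2 ≤ n) (hV : Fintype.card V = 2 * n + 1)
    (he : n ^ 2 + n ≤ G.edgeFinset.card) : ∃ R : Finset V, R.card = n ∧ BipOn G R := by
  classical
  by_cases hdist : ∀ x y : V, x ≠ y → G.degree x = G.degree y → G.degree x ≤ n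
  · exfalso
    have : Nonempty V := by
      rw [← Fintype.card_pos_iff, hV]; omega
    obtain ⟨u, hu⟩ := G.exists_maximal_degree_vertex
    have hmax : ∀ v, G.degree v ≤ G.degree u := by
      intro v
      rw [← hu]
      exact G.degree_le_maxDegree v
    have h2e := two_e (G := G)
    have hun : n + 1 ≤ G.degree u := by
      by_contra h
      have h1 : ∑ v, G.degree v ≤ ∑ _v : V, n := by
        apply sum_le_sum
        intro v _
        have := hmax v
        omega
      rw [sum_const, card_univ, hV, smul_eq_mul] at h1
      nlinarith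
    have hu2 : G.degree u ≤ 2 * n := by
      have := G.degree_lt_card_verts u
      omega
    obtain ⟨b, hb⟩ : ∃ b, G.degree u = n + 1 + b := ⟨G.degree u - (n + 1), by omega⟩
    obtain ⟨a, hab⟩ : ∃ a, a + b = n := ⟨n - b, by omega⟩
    rcases Nat.eq_zero_or_pos b with hb0 | hb0
    · have h1 : ∑ v, G.degree v = G.degree u + ∑ v ∈ univ.erase u, G.degree v :=
        (Finset.add_sum_erase univ _ (mem_univ u)).symm
      have h2 : ∑ v ∈ univ.erase u, G.degree v ≤ (univ.erase u).card * n := by
        rw [← smul_eq_mul, ← sum_const]
        apply sum_le_sum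
        intro v hv
        have h3 := hmax v
        by_contra h4
        have h5 := hdist v u (mem_erase.1 hv).1 (by omega)
        omega
      rw [card_erase_of_mem (mem_univ u), card_univ, hV] at h2
      have h3 : (2 * n + 1 - 1) * n = 2 * n ^ 2 := by
        have : 2 * n + 1 - 1 = 2 * n := by omega
        rw [this]; ring
      omega
    · have hsb := sum_bound hP n b a hV hab hdist u hb hmax hb0
      have hbn : b + 1 ≤ n := by omega
      obtain ⟨m, hm⟩ : ∃ m, n = b + 1 + m := ⟨n - (b + 1), by omega⟩
      have h1 : n * (b + 1) ≤ b * (b + 1) + 2 := by nlinarith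
      have h2 : (m + 1) * (b + 1) ≤ 2 := by
        rw [hm] at h1
        nlinarith
      have hm0 : m = 0 := by
        by_contra h
        have : 1 ≤ m := Nat.one_le_iff_ne_zero.2 h
        nlinarith
      have hb1 : b = 1 := by
        subst hm0
        omega
      have hn2 : n = 2 := by omega
      subst hn2
      exact five hP hV he hdist u (by omega)
  · push Not at hdist
    obtain ⟨x, y, hxy, hd, hdn⟩ := hdist
    by_cases hadj : G.Adj x y
    · exact (caseTwo hP n hn hV x y hadj hd hdn he).elim
    · exact caseOne hP n hV x y hxy hadj hd hdn he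

/-- A complete bipartite graph with classes of `n` and `n + 1` vertices has `n ^ 2 + n` edges. -/
theorem bip_edges (n : ℕ) (hV : Fintype.card V = 2 * n + 1) (R : Finset V) (hR : R.card = n)
    (hB : BipOn G R) : G.edgeFinset.card = n ^ 2 + n := by
  classical
  have h2e := two_e (G := G)
  have h1 : ∀ v ∈ R, G.degree v = n + 1 := by
    intro v hv
    have : G.neighborFinset v = univ \ R := by
      ext w
      rw [SimpleGraph.mem_neighborFinset, hB, mem_sdiff]
      constructor
      · rintro (h | h)
        · exact ⟨mem_univ _, h.2⟩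
        · exact absurd hv h.1
      · intro h
        exact Or.inl ⟨hv, h.2⟩
    rw [← SimpleGraph.card_neighborFinset_eq_degree, this, card_sdiff_of_subset (subset_univ _),
      card_univ, hV, hR]
    omega
  have h2 : ∀ v ∈ univ \ R, G.degree v = n := by
    intro v hv
    have hv' := (mem_sdiff.1 hv).2
    have : G.neighborFinset v = R := by
      ext w
      rw [SimpleGraph.mem_neighborFinset, hB]
      constructor
      · rintro (h | h)
        · exact absurd h.1 hv'
        · exact h.2
      · intro h
        exact Or.inr ⟨hv', h⟩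
    rw [← SimpleGraph.card_neighborFinset_eq_degree, this, hR]
  have h3 : ∑ v, G.degree v = ∑ v ∈ univ \ R, G.degree v + ∑ v ∈ R, G.degree v :=
    (sum_sdiff (subset_univ _)).symm
  rw [sum_congr rfl h1, sum_congr rfl h2, sum_const, sum_const,
    card_sdiff_of_subset (subset_univ _), card_univ, hV, hR, smul_eq_mul, smul_eq_mul] at h3
  have h4 : 2 * n + 1 - n = n + 1 := by omega
  rw [h4] at h3
  have h5 : (n + 1) * n + n * (n + 1) = 2 * (n ^ 2 + n) := by ring
  omega

end Pool.Agent.N425.P3
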