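import Pool.Agent.N425.P3.Basic

set_option autoImplicit false

/-!
# The neighbourhood of a vertex of largest degree
-/

namespace Pool.Agent.N425.P3

open Finset

variable {V : Type*} [Fintype V] [DecidableEq V] {G : SimpleGraph V} [DecidableRel G.Adj]

/-- Two neighbours `y`, `y'` of `u` of equal degree: the vertices `u` and `y` have no common
neighbour except possibly `y'`. -/
theorem inter_sub (hP : NoPath G) {u y y' : V} (hy : G.Adj u y) (hy' : G.Adj u y') (hne : y ≠ y')
    (hd : G.degree y = G.degree y') : G.neighborFinset u ∩ G.neighborFinset y ⊆ {y'} := by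
  intro z hz
  rw [mem_inter, SimpleGraph.mem_neighborFinset, SimpleGraph.mem_neighborFinset] at hz
  rw [mem_singleton]
  by_contra hzy
  exact hP y' u z y hy'.symm hz.1 hz.2.symm (Ne.symm hne) (Ne.symm hzy) hy.ne hd.symm

theorem deg_le_of_pair (hP : NoPath G) {u y y' : V} (hy : G.Adj u y) (hy' : G.Adj u y')
    (hne : y ≠ y') (hd : G.degree y = G.degree y') :
    G.degree u + G.degree y ≤ Fintype.card V + 1 := by
  have h1 := Finset.card_le_card (inter_sub hP hy hy' hne hd)
  rw [card_singleton] at h1
  have h2 := Finset.card_union_add_card_inter (G.neighborFinset u) (G.neighborFinset y)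
  have h3 : (G.neighborFinset u ∪ G.neighborFinset y).card ≤ Fintype.card V :=
    Finset.card_le_univ _
  rw [SimpleGraph.card_neighborFinset_eq_degree, SimpleGraph.card_neighborFinset_eq_degree] at h2
  omega

theorem deg_le_of_triple (hP : NoPath G) {u y y' y'' : V} (hy : G.Adj u y) (hy' : G.Adj u y')
    (hy'' : G.Adj u y'') (h1 : y ≠ y') (h2 : y ≠ y'') (h3 : y' ≠ y'')
    (hd : G.degree y = G.degree y') (hd' : G.degree y = G.degree y'') :
    G.degree u + G.degree y ≤ Fintype.card V := by
  have h4 := inter_sub hP hy hy' h1 hd
  have h5 := inter_sub hP hy hy'' h2 hd'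
  have h6 : G.neighborFinset u ∩ G.neighborFinset y = ∅ := by
    rw [Finset.eq_empty_iff_forall_notMem]
    intro z hz
    have h7 := h4 hz
    have h8 := h5 hz
    rw [mem_singleton] at h7 h8
    exact h3 (h7.symm.trans h8)
  have h2 := Finset.card_union_add_card_inter (G.neighborFinset u) (G.neighborFinset y)
  have h3 : (G.neighborFinset u ∪ G.neighborFinset y).card ≤ Fintype.card V :=
    Finset.card_le_univ _
  rw [SimpleGraph.card_neighborFinset_eq_degree, SimpleGraph.card_neighborFinset_eq_degree,
    h6, card_empty] at h2
  omega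

/-- The sum of the degrees if all degrees larger than `n` are distinct. Here `u` has the largest
degree `n + 1 + b`, and there are `2 n + 1` vertices. -/
theorem sum_bound (hP : NoPath G) (n b a : ℕ) (hV : Fintype.card V = 2 * n + 1) (hab : a + b = n)
    (hdist : ∀ x y : V, x ≠ y → G.degree x = G.degree y → G.degree x ≤ n) (u : V)
    (hu : G.degree u = n + 1 + b) (hmax : ∀ v, G.degree v ≤ G.degree u) (hb : 1 ≤ b) :
    2 * G.edgeFinset.card + b * n ≤ 2 * n ^ 2 + n + 2 + b + b ^ 2 := by
  classical
  have hlt : ∀ v, v ≠ u → G.degree v ≤ n + b := by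
    intro v hv
    have h1 := hmax v
    by_contra h2
    have h3 : G.degree v = G.degree u := by omega
    have h4 := hdist v u hv h3
    omega
  -- the part above `n`
  have hX : 2 * ∑ v ∈ univ.erase u, (G.degree v - n) ≤ b * (b + 1) := by
    have h1 : ∑ v ∈ univ.erase u, (G.degree v - n) =
        ∑ v ∈ (univ.erase u).filter (fun v => n < G.degree v), (G.degree v - n) := by
      rw [Finset.sum_filter]
      apply Finset.sum_congr rfl
      intro v _
      by_cases h : n < G.degree v
      · rw [if_pos h]
      · rw [if_neg h]; omega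
    rw [h1]
    apply sum_inj_le
    · intro x hx y hy hxy
      rw [mem_filter] at hx hy
      by_contra hne
      have := hdist x y hne hxy
      omega
    · intro x hx
      rw [mem_filter] at hx
      exact hx.2
    · intro x hx
      rw [mem_filter, mem_erase] at hx
      exact hlt x hx.1.1
  -- the number of high neighbours
  set NU := G.neighborFinset u with hNU
  have hadj : ∀ v, v ∈ NU ↔ G.Adj u v := by
    intro v; rw [hNU, SimpleGraph.mem_neighborFinset]
  have hcardNU : NU.card = n + 1 + b := by
    rw [hNU, SimpleGraph.card_neighborFinset_eq_degree, hu]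
  have hHi : (NU.filter (fun v => n < G.degree v)).card ≤ b := by
    apply card_inj_le _ (fun v => G.degree v) n b
    · intro x hx y hy hxy
      rw [mem_filter] at hx hy
      by_contra hne
      have := hdist x y hne hxy
      omega
    · intro x hx
      rw [mem_filter] at hx
      exact hx.2
    · intro x hx
      rw [mem_filter, hadj] at hx
      exact hlt x hx.1.ne'
  -- the middle neighbours
  set Y := NU.filter (fun v => a < G.degree v ∧ G.degree v ≤ n) with hY
  have hpair : ∀ y ∈ NU, ∀ y' ∈ NU, y ≠ y' → G.degree y = G.degree y' → G.degree y ≤ a + 1 := by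
    intro y hy y' hy' hne hd
    rw [hadj] at hy hy'
    have := deg_le_of_pair hP hy hy' hne hd
    omega
  have hmid : 2 * ∑ v ∈ Y, (G.degree v - a) ≤ b * (b + 1) + 2 := by
    by_cases hinj : ∀ x ∈ Y, ∀ y ∈ Y, G.degree x = G.degree y → x = y
    · have := sum_inj_le Y (fun v => G.degree v) a b hinj
        (by intro x hx; rw [hY, mem_filter] at hx; exact hx.2.1)
        (by intro x hx; rw [hY, mem_filter] at hx; show G.degree x ≤ a + b; omega)
      omega
    · push Not at hinj
      obtain ⟨x, hx, y, hy, hxy, hne⟩ := hinj
      have hxN : x ∈ NU := (mem_filter.1 hx).1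
      have hyN : y ∈ NU := (mem_filter.1 hy).1
      have hx1 : G.degree x = a + 1 := by
        have h1 := hpair x hxN y hyN hne hxy
        have h2 := (mem_filter.1 hx).2.1
        omega
      have h3 : 2 * ∑ v ∈ Y.erase x, (G.degree v - a) ≤ b * (b + 1) := by
        apply sum_inj_le
        · intro z hz w hw hzw
          rw [mem_erase] at hz hw
          by_contra hne2
          have hzN : z ∈ NU := (mem_filter.1 hz.2).1
          have hwN : w ∈ NU := (mem_filter.1 hw.2).1
          have h4 := hpair z hzN w hwN hne2 hzw
          have h5 := (mem_filter.1 hz.2).2.1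
          have h6 : G.degree x = G.degree z := by omega
          have h7 : G.degree x = G.degree w := by omega
          rw [hadj] at hxN hzN hwN
          have h8 := deg_le_of_triple hP hxN hzN hwN (Ne.symm hz.1) (Ne.symm hw.1) hne2 h6 h7
          omega
        · intro z hz
          exact (mem_filter.1 (mem_of_mem_erase hz)).2.1
        · intro z hz
          have := (mem_filter.1 (mem_of_mem_erase hz)).2.2
          omega
      have h4 := Finset.add_sum_erase Y (fun v => G.degree v - a) hx
      rw [hx1] at h4
      omega
  -- the truncated sum over the neighbours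
  have htr : ∑ v ∈ NU, (min (G.degree v) n - a) ≤
      b * (NU.filter (fun v => n < G.degree v)).card + ∑ v ∈ Y, (G.degree v - a) := by
    have h1 : ∑ v ∈ NU, (min (G.degree v) n - a) ≤
        ∑ v ∈ NU, ((if n < G.degree v then b else 0) +
          (if a < G.degree v ∧ G.degree v ≤ n then G.degree v - a else 0)) := by
      apply Finset.sum_le_sum
      intro v _
      by_cases h2 : n < G.degree v
      · rw [if_pos h2]
        have : min (G.degree v) n = n := min_eq_right h2.le
        omega
      · rw [if_neg h2]
        by_cases h3 : a < G.degree v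
        · rw [if_pos ⟨h3, by omega⟩]
          have : min (G.degree v) n ≤ G.degree v := min_le_left _ _
          omega
        · have : min (G.degree v) n ≤ G.degree v := min_le_left _ _
          omega
    rw [Finset.sum_add_distrib, ← Finset.sum_filter, ← Finset.sum_filter, Finset.sum_const,
      smul_eq_mul] at h1
    rw [hY]
    linarith [mul_comm b (NU.filter (fun v => n < G.degree v)).card]
  -- split the whole sum
  have hsplit : ∑ v, G.degree v = G.degree u + ∑ v ∈ univ.erase u, G.degree v :=
    (Finset.add_sum_erase univ _ (mem_univ u)).symm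
  have hNsub : NU ⊆ univ.erase u := by
    intro v hv
    rw [hadj] at hv
    exact mem_erase.2 ⟨hv.ne', mem_univ _⟩
  set W := (univ.erase u) \ NU with hW
  have hWcard : W.card + (n + 1 + b) = 2 * n := by
    rw [hW, Finset.card_sdiff_of_subset hNsub, Finset.card_erase_of_mem (mem_univ u), card_univ,
      hV]
    have := Finset.card_le_card hNsub
    rw [Finset.card_erase_of_mem (mem_univ u), card_univ, hV] at this
    omega
  have hsum : ∀ f : V → ℕ, ∑ v ∈ univ.erase u, f v = ∑ v ∈ W, f v + ∑ v ∈ NU, f v := by
    intro f
    rw [hW, Finset.sum_sdiff hNsub]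
  have hWle : ∑ v ∈ W, G.degree v ≤ W.card * n + ∑ v ∈ W, (G.degree v - n) := by
    rw [← smul_eq_mul, ← Finset.sum_const, ← Finset.sum_add_distrib]
    apply Finset.sum_le_sum
    intro v _
    omega
  have hNle : ∑ v ∈ NU, G.degree v ≤ NU.card * a + ∑ v ∈ NU, (min (G.degree v) n - a) +
      ∑ v ∈ NU, (G.degree v - n) := by
    rw [← smul_eq_mul, ← Finset.sum_const, ← Finset.sum_add_distrib, ← Finset.sum_add_distrib]
    apply Finset.sum_le_sum
    intro v _
    by_cases h2 : n < G.degree v
    · have : min (G.degree v) n = n := min_eq_right h2.le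
      omega
    · have : min (G.degree v) n = G.degree v := min_eq_left (by omega)
      omega
  have h1 := hsum (fun v => G.degree v)
  have h2 := hsum (fun v => G.degree v - n)
  have h3 := two_e (G := G)
  rw [hcardNU] at hNle
  have hbb : b * (NU.filter (fun v => n < G.degree v)).card ≤ b * b := Nat.mul_le_mul_left b hHi
  have hkey : 2 * G.edgeFinset.card ≤ (n + 1 + b) + W.card * n + (n + 1 + b) * a +
      b * b + ∑ v ∈ Y, (G.degree v - a) + ∑ v ∈ univ.erase u, (G.degree v - n) := by
    omega
  have hWc : W.card = n - 1 - b := by omega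
  have hb2 : b + 1 ≤ n := by omega
  obtain ⟨m, rfl⟩ : ∃ m, n = b + 1 + m := ⟨n - (b + 1), by omega⟩
  have hWc2 : W.card = m := by omega
  have ha2 : a = m + 1 := by omega
  rw [hWc2, ha2] at hkey
  nlinarith [hkey, hmid, hX]

end Pool.Agent.N425.P3
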